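import Pool.Agent.Helper69.MC.StB

/-!
# Project MC, module FRM: the two sides of a regular point are in different components
-/

set_option autoImplicit false

namespace Pool.Agent.Helper4.MC

open Set Topology Filter MeasureTheory
open Pool.Agent.Helper31.CY Pool.Agent.Helper69.MF Pool.Agent.Helper69.MC

theorem convex_Sl (h : ℝ) : Convex ℝ (Sl h) := by
  intro x hx y hy a b ha hb hab
  obtain ⟨hx1, hx2⟩ := hx
  obtain ⟨hy1, hy2⟩ := hy
  have e : (a • x + b • y) 2 = a * x 2 + b * y 2 := by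
    simp [PiLp.add_apply, PiLp.smul_apply]
  refine ⟨?_, ?_⟩
  · rw [e]
    rcases ha.lt_or_eq with ha' | ha'
    · have h1 : 0 < a * x 2 := mul_pos ha' hx1
      have h2 : 0 ≤ b * y 2 := mul_nonneg hb hy1.le
      linarith
    · have hb1 : b = 1 := by linarith
      rw [← ha', hb1]
      linarith
  · rw [e]
    rcases ha.lt_or_eq with ha' | ha'
    · have h1 : a * x 2 < a * h := mul_lt_mul_of_pos_left hx2 ha'
      have h2 : b * y 2 ≤ b * h := mul_le_mul_of_nonneg_left hy2.le hb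
      have h3 : a * h + b * h = h := by rw [← add_mul, hab, one_mul]
      linarith
    · have hb1 : b = 1 := by linarith
      rw [← ha', hb1]
      linarith

theorem disj_Sl (K0 K1 : Set (ℝ × ℝ)) (h : ℝ) : Disjoint (Sl h) (Gm K0 K1 h) := by
  rw [Set.disjoint_left]
  rintro x ⟨h1, h2⟩ (⟨_, h3⟩ | ⟨_, h3⟩)
  · rw [h3] at h1
    exact lt_irrefl _ h1
  · rw [h3] at h2
    exact lt_irrefl _ h2

theorem hFRM : StPOS → StLSG → StFRM := by
  intro hPOS hLSG K0 K1 h 𝒞 S hC q hq hreg ρ0 L hL hball i j hij x hx y hy hxy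
  obtain ⟨hρ0, _, hpc, hcov, _⟩ := hL
  obtain ⟨γ, hγ, hγS⟩ := hPOS S (Gm K0 K1 h) 𝒞 hC.mps hC.mnz q hq hreg (ρ0 / 2) (by linarith)
  have hSc : IsClosed S := hC.mps.cpt.isClosed
  have hsub : ∀ k, Metric.ball q ρ0 ∩ L k ⊆ Sl h \ S := by
    rintro k z ⟨hz1, hz2⟩
    exact ⟨hball hz1, (hcov z hz1).mpr ⟨k, hz2⟩⟩
  have hj : ∀ k, ∀ z ∈ Metric.ball q ρ0 ∩ L k, ∀ z' ∈ Metric.ball q ρ0 ∩ L k,
      JoinedIn (Sl h \ S) z z' := by
    intro k z hz z' hz'
    exact ((hpc ρ0 hρ0 le_rfl k).joinedIn z hz z' hz').mono (hsub k)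
  have hall : ∀ z ∈ Metric.ball q ρ0, z ∉ S → JoinedIn (Sl h \ S) z x := by
    intro z hz hzS
    obtain ⟨k, hk⟩ := (hcov z hz).mp hzS
    have hkk : k = i ∨ k = j := by
      fin_cases k <;> fin_cases i <;> fin_cases j <;> simp_all
    rcases hkk with rfl | rfl
    · exact hj k z ⟨hz, hk⟩ x hx
    · exact (hj k z ⟨hz, hk⟩ y hy).trans hxy.symm
  obtain ⟨γ', hhot, hγ'⟩ := hLSG (Gm K0 K1 h) (Sl h) S (Metric.closedBall q (ρ0 / 2) ∩ S)
    (Metric.ball q ρ0) γ (convex_Sl h) (disj_Sl K0 K1 h) (Metric.isClosed_closedBall.inter hSc)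
    Metric.isOpen_ball hball (hC.hc.1 γ hγ)
    (fun s hs => ⟨Metric.ball_subset_closedBall (hγS s hs), hs⟩)
    (fun s hs => Metric.closedBall_subset_ball (by linarith) hs.1)
    (fun z z' hz _ hzS hz' _ hzS' => (hall z hz hzS).trans (hall z' hz' hzS').symm)
    ⟨x, hsub i hx⟩
  obtain ⟨s, hs⟩ := hC.mnz.2.1 γ' (hC.hc.2 γ hγ γ' hhot)
  exact hγ' s hs

end Pool.Agent.Helper4.MC
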